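import Mathlib

/-!
Definitions for the statement on generic Tonelli Lagrangians (Mane's conjecture, `k = 2`).
The manifold `M` is modelled on a finite dimensional real normed space `V`.
-/

namespace Pool.Agent.MP_7bf9b2_an

open scoped Manifold ContDiff
open Set Filter MeasureTheory

/-- The circle `ℝ/ℤ`. -/
abbrev Ci : Type := AddCircle (1 : ℝ)

/-- The class of a real number in `ℝ/ℤ`. -/
def cl (t : ℝ) : Ci := (t : AddCircle (1 : ℝ))

section Flows

variable {X : Type} [TopologicalSpace X] [MeasurableSpace X]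

/-- Compactly supported invariant probability measures of the flow `Φ`. -/
def IsInv (Φ : Flow ℝ X) (μ : Measure X) : Prop :=
  IsProbabilityMeasure μ ∧ (∃ K : Set X, IsCompact K ∧ μ Kᶜ = 0) ∧ ∀ s : ℝ, μ.map (Φ s) = μ

/-- `μ` minimizes `∫ ℓ` among compactly supported invariant probability measures. -/
def IsMin (Φ : Flow ℝ X) (ℓ : X → ℝ) (μ : Measure X) : Prop :=
  IsInv Φ μ ∧ ∀ ν : Measure X, IsInv Φ ν → ∫ z, ℓ z ∂μ ≤ ∫ z, ℓ z ∂ν

/-- There is exactly one minimizing measure and it is carried by a periodic orbit. -/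
def UniqPer (Φ : Flow ℝ X) (ℓ : X → ℝ) : Prop :=
  ∃ μ : Measure X, IsMin Φ ℓ μ ∧ (∀ ν : Measure X, IsMin Φ ℓ ν → ν = μ) ∧
    ∃ (p : X) (T : ℝ), 0 < T ∧ Φ T p = p ∧ μ (range fun s : ℝ => Φ s p)ᶜ = 0

end Flows

section Manifold

variable (V : Type) [NormedAddCommGroup V] [NormedSpace ℝ V] (M : Type) [TopologicalSpace M]
  [ChartedSpace V M]

/-- The tangent bundle `TM`. -/
abbrev TB : Type := TangentBundle 𝓘(ℝ, V) M

/-- The phase space `TM × ℝ/ℤ`. -/
abbrev TT : Type := TB V M × Ci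

variable {V M}

/-- The tangent vector `v` at `x`. -/
def tv (x : M) (v : V) : TB V M := ⟨x, v⟩

/-- The velocity of a curve `c` in `M` at time `s`, as a point of `TM`. -/
noncomputable def velo (c : ℝ → M) (s : ℝ) : TB V M :=
  tv (c s) (mfderiv 𝓘(ℝ, ℝ) 𝓘(ℝ, V) c s (1 : ℝ))

/-- The tangent vector with coordinates `(q, v)` in the chart at `x₀`. -/
noncomputable def coord (x₀ : M) (q v : V) : TB V M :=
  tv ((chartAt V x₀).symm q) (mfderiv 𝓘(ℝ, V) 𝓘(ℝ, V) (chartAt V x₀).symm q v)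

/-- The Euler-Lagrange equation `d/ds ∂ℓ/∂v = ∂ℓ/∂q` at `s = 0` for a curve `q` in `V` and a
Lagrangian `ℓ q v s` written in coordinates. -/
def ELAt (ℓ : V → V → ℝ → ℝ) (q : ℝ → V) : Prop :=
  HasDerivAt (fun s : ℝ => fderiv ℝ (fun v : V => ℓ (q s) v s) (deriv q s))
    (fderiv ℝ (fun x : V => ℓ x (deriv q 0) 0) (q 0)) 0

variable (V) in
/-- `C²` curves in `M`. -/
def IsC2Curve (c : ℝ → M) : Prop := ContMDiff 𝓘(ℝ, ℝ) 𝓘(ℝ, V) 2 c

/-- `φ` follows the Euler-Lagrange equation of `L`: time advances at unit speed, base curves are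
`C²`, the point of `TM` is their velocity, and the Euler-Lagrange equation holds at the initial
time in the chart at the initial point (for a flow `φ`, this gives it at every time). -/
structure IsEL (L : TT V M → ℝ) (φ : ℝ → TT V M → TT V M) : Prop where
  time : ∀ (s : ℝ) (z : TT V M), (φ s z).2 = z.2 + cl s
  smooth : ∀ z : TT V M, IsC2Curve V fun s : ℝ => (φ s z).1.proj
  vel : ∀ (s : ℝ) (z : TT V M), (φ s z).1 = velo (fun s' : ℝ => (φ s' z).1.proj) s
  el : ∀ (z : TT V M) (t : ℝ), z.2 = cl t →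
    ELAt (fun q v s => L (coord z.1.proj q v, cl (t + s)))
      fun s : ℝ => chartAt V z.1.proj (φ s z).1.proj

variable (V M) in
/-- The space `C²(M × ℝ/ℤ)` of potentials. -/
structure Pot where
  toFun : M × Ci → ℝ
  smooth : ContMDiff (𝓘(ℝ, V).prod 𝓘(ℝ, ℝ)) 𝓘(ℝ, ℝ) 2 fun p : M × ℝ => toFun (p.1, cl p.2)

/-- A potential read in the chart at `x₀`. -/
noncomputable def Pot.loc (f : Pot V M) (x₀ : M) (p : V × ℝ) : ℝ :=
  f.toFun ((chartAt V x₀).symm p.1, cl p.2)

/-- Derivatives of order `≤ 2` of `F` and `G` are `ε`-close on `K`. -/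
def C2Close {W : Type} [NormedAddCommGroup W] [NormedSpace ℝ W] (K : Set W) (ε : ℝ)
    (F G : W → ℝ) : Prop :=
  ∀ p ∈ K, ∀ k : ℕ, k ≤ 2 → ‖iteratedFDeriv ℝ k F p - iteratedFDeriv ℝ k G p‖ < ε

/-- The `C²` topology: generated by `ε`-closeness of derivatives of order `≤ 2` on compact sets
in charts. -/
instance : TopologicalSpace (Pot V M) :=
  TopologicalSpace.generateFrom
    {N | ∃ (f : Pot V M) (x₀ : M) (K : Set (V × ℝ)) (ε : ℝ), IsCompact K ∧
      K ⊆ (chartAt V x₀).target ×ˢ univ ∧ 0 < ε ∧ N = {g | C2Close K ε (g.loc x₀) (f.loc x₀)}}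

variable [IsManifold 𝓘(ℝ, V) ∞ M]

/-- `C²` functions on `TM × ℝ`. -/
def IsC2 (F : TB V M × ℝ → ℝ) : Prop := ContMDiff (𝓘(ℝ, V).tangent.prod 𝓘(ℝ, ℝ)) 𝓘(ℝ, ℝ) 2 F

/-- `C²`, fibrewise positive definite Hessian, fibrewise superlinear. -/
structure IsTonelli (L : TT V M → ℝ) : Prop where
  smooth : IsC2 fun p : TB V M × ℝ => L (p.1, cl p.2)
  convex : ∀ (x : M) (v w : V) (t : Ci), w ≠ 0 →
    0 < iteratedDeriv 2 (fun s : ℝ => L (tv x (v + s • w), t)) 0
  superlinear : ∀ (x : M) (t : Ci),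
    Tendsto (fun v : V => L (tv x v, t) / ‖v‖) (cocompact V) atTop

/-- Closed `1`-forms of class `C²`, seen as fibrewise linear functions on `TM`. -/
structure IsClosedForm (η : TB V M → ℝ) : Prop where
  smooth : IsC2 fun p : TB V M × ℝ => η p.1
  linear : ∀ x : M, IsLinearMap ℝ fun v : V => η (tv x v)
  closed : ∀ (x₀ : M), ∀ q ∈ (chartAt V x₀).target, ∀ v w : V,
    fderiv ℝ (fun x : V => η (coord x₀ x v)) q w = fderiv ℝ (fun x : V => η (coord x₀ x w)) q v

end Manifold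

end Pool.Agent.MP_7bf9b2_an
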